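import Pool.Agent.Helper32.AG.Goals

set_option autoImplicit false

namespace Pool.Agent.Helper75.AG

universe u

/-- Packet AGN: nilpotent finite groups with abelian Sylow subgroups are commutative. -/
theorem agn : Pool.Agent.Helper32.AG.AgnStmt.{u} := by
  intro G _ _ hnil hA x y
  obtain ⟨e⟩ := ((Group.isNilpotent_of_finite_tfae (G := G)).out 0 4).mp hnil
  have key : e.symm x * e.symm y = e.symm y * e.symm x := by
    funext p P
    apply Subtype.ext
    exact hA p (Nat.prime_of_mem_primeFactors p.2) (P : Subgroup G) P.isPGroup'
      _ (e.symm x p P).2 _ (e.symm y p P).2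
  have h2 := congrArg e key
  simpa using h2

end Pool.Agent.Helper75.AG
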